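import Pool.Agent.H11.GMk

set_option autoImplicit false

namespace Pool.Agent.Results.MP_e5cbc1_lc.NPHard
open Pool.Agent.H11.PT

/-- number of neighbours of `v` placed before `v` in the order given by the numbering `f` -/
noncomputable def dm {V : Type} (G : SimpleGraph V) (f : V → ℕ) (v : V) : ℕ :=
  {w | G.Adj v w ∧ f w < f v}.ncard
/-- number of neighbours of `v` placed after `v` -/
noncomputable def dp {V : Type} (G : SimpleGraph V) (f : V → ℕ) (v : V) : ℕ :=
  {w | G.Adj v w ∧ f v < f w}.ncard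

/-- some linear order (injective numbering) of the vertices is of Type A -/
def TypeA {V : Type} (G : SimpleGraph V) : Prop :=
  ∃ f : V → ℕ, Function.Injective f ∧ ∀ v, Odd (dm G f v) ∨ dm G f v = 0

/-- some linear order (injective numbering) of the vertices is of Type B -/
def TypeB {V : Type} (G : SimpleGraph V) : Prop :=
  ∃ f : V → ℕ, Function.Injective f ∧
    ∀ v, (Odd (dm G f v) ∨ dm G f v = 0) ∨ (Even (dm G f v) ∧ dp G f v = 0)

abbrev V := ℕ × ℕ × ℕ
abbrev F := List (Lit × Lit × Lit)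
def lit (φ : F) (j r : ℕ) : Lit :=
  if r = 0 then (φ.getD j ((0, true), (0, true), (0, true))).1
  else if r = 1 then (φ.getD j ((0, true), (0, true), (0, true))).2.1
  else (φ.getD j ((0, true), (0, true), (0, true))).2.2
def nv (φ : F) : ℕ := (φ.map fun c => c.1.1 + c.2.1.1 + c.2.2.1).sum + 1
def vv (φ : F) (j r : ℕ) : V := (0, (lit φ j r).1, bif (lit φ j r).2 then 1 else 0)
def occ (φ : F) (v : V) : List (ℕ × ℕ) :=
  (List.range φ.length ×ˢ List.range 3).filter fun o => vv φ o.1 o.2 == v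
def nb (φ : F) (v : V) : List V :=
  if v.1 = 0 then (0, v.2.1, 1 - v.2.2) :: (occ φ v).flatMap fun o => [(2, o), (3, o)]
  else if v.1 = 1 then [(1, v.2.1, (v.2.2 + 1) % 3), (1, v.2.1, (v.2.2 + 2) % 3), (2, v.2)]
  else if v.1 = 2 then [(1, v.2), vv φ v.2.1 v.2.2, (3, v.2)]
  else if v.1 = 3 then [vv φ v.2.1 v.2.2, (2, v.2), (4, v.2), (5, v.2), (6, v.2)]
  else if v.1 = 4 then [(3, v.2), (5, v.2), (6, v.2)]
  else if v.1 = 5 then [(3, v.2), (4, v.2), (6, v.2)]
  else [(3, v.2), (4, v.2), (5, v.2)]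
abbrev Val (φ : F) (v : V) : Prop :=
  (v.1 = 0 ∧ v.2.1 < nv φ ∧ v.2.2 < 2) ∨ (1 ≤ v.1 ∧ v.1 ≤ 6 ∧ v.2.1 < φ.length ∧ v.2.2 < 3)
def vs (φ : F) : List V :=
  (List.range 7 ×ˢ List.range (nv φ + φ.length) ×ˢ List.range 3).filter fun v => decide (Val φ v)
abbrev red (φ : F) : ℕ × List (ℕ × ℕ) := ((vs φ).length, mkE (vs φ) fun v w => (nb φ v).contains w)

theorem red_pt : PT red := by
  have h0 : PT nv := by unfold nv; fun_prop
  have h3 : PT vs := by unfold vs Val; fun_prop
  exact h3.length.pair (PT.mkE (adj := fun φ v w => (nb φ v).contains w) h3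
    (by unfold nb occ vv lit; fun_prop))

variable (φ : F)

theorem mem_vs (v : V) : v ∈ vs φ ↔ Val φ v := by
  obtain ⟨a, b, c⟩ := v
  simp only [vs, List.mem_filter, List.mem_product, List.mem_range, decide_eq_true_eq, Val]
  omega

theorem vv_val {j r : ℕ} (h : j < φ.length) : Val φ (vv φ j r) := by
  have := List.single_le_sum (l := φ.map fun c => c.1.1 + c.2.1.1 + c.2.2.1) (by simp) _
    (List.mem_map_of_mem (List.getElem_mem h))
  left
  refine ⟨rfl, ?_, by simp only [vv]; cases (lit φ j r).2 <;> simp⟩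
  simp only [vv, lit, List.getD_eq_getElem _ _ h, nv]
  split_ifs <;> omega

theorem mem_occ (v : V) (o : ℕ × ℕ) : o ∈ occ φ v ↔ o.1 < φ.length ∧ o.2 < 3 ∧ vv φ o.1 o.2 = v := by
  obtain ⟨a, b⟩ := o
  simp [occ, and_assoc]

theorem vv1 (j r : ℕ) : (vv φ j r).1 = 0 := rfl

theorem nb_spec {v : V} (h : Val φ v) : (nb φ v).Nodup ∧
    ∀ w ∈ nb φ v, Val φ w ∧ w ≠ v ∧ v ∈ nb φ w := by
  obtain ⟨k, a, b⟩ := v
  rcases h with h | h
  · obtain ⟨rfl, h1, h2⟩ := h
    dsimp only at h1 h2
    constructor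
    · simp only [nb, if_true, List.nodup_cons, List.mem_flatMap]
      refine ⟨by simp, List.nodup_flatMap.2 ⟨by simp, ?_⟩⟩
      refine ((List.nodup_range.product List.nodup_range).filter _).imp fun {o o'} h => ?_
      simpa [Function.onFun, List.disjoint_left] using h
    · intro w hw
      simp only [nb, if_true, List.mem_cons, List.mem_flatMap, mem_occ, List.not_mem_nil,
        or_false] at hw
      rcases hw with rfl | ⟨o, ⟨h3, h4, h5⟩, rfl | rfl⟩
      · refine ⟨Or.inl ⟨rfl, h1, by dsimp only; omega⟩, by simp; omega, ?_⟩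
        simp [nb]; omega
      · exact ⟨Or.inr (by simp [h3, h4]), by simp, by simp [nb, h5]⟩
      · exact ⟨Or.inr (by simp [h3, h4]), by simp, by simp [nb, h5]⟩
  · obtain ⟨h1, h2, h3, h4⟩ := h
    dsimp only at h1 h2 h3 h4
    have a1 := vv_val φ (r := b) h3
    have a2 : ∀ k a b, k ≠ 0 → vv φ a b ≠ (k, a, b) ∧ (k, a, b) ≠ vv φ a b := fun k a b h =>
      ⟨fun e => h (congrArg Prod.fst e).symm, fun e => h (congrArg Prod.fst e)⟩
    have a3 : ∀ k, k = 2 ∨ k = 3 → (k, a, b) ∈ nb φ (vv φ a b) := by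
      intro k hk
      simp only [nb, vv1, if_true, List.mem_cons, List.mem_flatMap, mem_occ]
      exact Or.inr ⟨(a, b), ⟨h3, h4, rfl⟩, by rcases hk with rfl | rfl <;> simp⟩
    interval_cases k
    · interval_cases b <;> simp [nb, Val, h3]
    · have := a3 2 (by simp)
      simp only [nb] at this ⊢
      simp [Val, h3, h4, a2, vv1] at this a1 ⊢; exact ⟨a1, this⟩
    · have := a3 3 (by simp)
      simp only [nb] at this ⊢
      simp [Val, h3, h4, a2, vv1] at this a1 ⊢; exact ⟨a1, this⟩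
    all_goals simp [nb, Val, h3, h4]

theorem graph : ∃ p : Fin (red φ).1 → V, Function.Injective p ∧ (∀ v, Val φ v ↔ ∃ i, p i = v) ∧
    ∀ i (q : Fin (red φ).1 → Prop) (q' : V → Bool), (∀ j, p j ∈ nb φ (p i) → (q j ↔ q' (p j) = true)) →
      {j | (gr (red φ).1 (red φ).2).Adj i j ∧ q j}.ncard = (nb φ (p i)).countP q' := by
  classical
  obtain ⟨p, h1, h2, -, h3⟩ := mkE_spec (vs φ)
    ((List.nodup_range.product (List.nodup_range.product List.nodup_range)).filter _)
    fun v w => (nb φ v).contains w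
  have hv : ∀ i, Val φ (p i) := fun i => (mem_vs φ _).1 ((h2 _).2 ⟨i, rfl⟩)
  have ha : ∀ i j, (gr (red φ).1 (red φ).2).Adj i j ↔ p j ∈ nb φ (p i) := by
    intro i j
    refine (h3 i j).trans ?_
    simp only [List.contains_iff_mem]
    exact ⟨fun h => h.2.elim id fun h => (((nb_spec φ (hv j)).2 _ h).2.2),
      fun h => ⟨((nb_spec φ (hv i)).2 _ h).2.1.symm, Or.inl h⟩⟩
  refine ⟨p, h1, fun v => (mem_vs φ v).symm.trans (h2 v), fun i q q' h => ?_⟩
  rw [← Set.ncard_image_of_injective _ h1, List.countP_eq_length_filter,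
    ← List.toFinset_card_of_nodup ((nb_spec φ (hv i)).1.filter _), ← Set.ncard_coe_finset]
  congr 1
  ext w
  simp only [Set.mem_image, Set.mem_ofPred_eq, ha, List.coe_toFinset, List.mem_filter]
  constructor
  · rintro ⟨j, ⟨a, b⟩, rfl⟩; exact ⟨a, (h j a).1 b⟩
  · rintro ⟨a, b⟩
    obtain ⟨j, rfl⟩ := (h2 w).1 ((mem_vs φ w).2 ((nb_spec φ (hv i)).2 _ a).1)
    exact ⟨j, ⟨a, (h j a).2 b⟩, rfl⟩

theorem even_fl (q : V → Bool) (L : List (ℕ × ℕ)) (h : ∀ o ∈ L, q (2, o) = q (3, o)) :
    (L.flatMap fun o => [((2, o) : V), (3, o)]).countP q % 2 = 0 := by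
  induction L with
  | nil => simp
  | cons o L ih =>
    have := ih fun o ho => h o (List.mem_cons_of_mem _ ho)
    have e := h o List.mem_cons_self
    simp only [List.flatMap_cons, List.countP_append, List.countP_cons, List.countP_nil, e]
    split_ifs <;> omega

def OK (R : V → ℕ) (v : V) (L : List V) : Prop := L.countP (fun w => R w < R v) % 2 = 1 ∨
  L.countP (fun w => R w < R v) = 0 ∨ L.countP (fun w => R v < R w) = 0

theorem ok3 {R : V → ℕ} {v x y z : V} (h : OK R v [x, y, z]) (a : R x ≠ R v) (b : R y ≠ R v)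
    (c : R z ≠ R v) : (R x < R v → R y < R v → R z < R v) ∧ (R x < R v → R z < R v → R y < R v) ∧
      (R y < R v → R z < R v → R x < R v) := by
  simp only [OK, List.countP_cons, List.countP_nil, decide_eq_true_eq] at h
  split_ifs at h <;> first | omega | simp at h

theorem ok5 {R : V → ℕ} {v x y a b c : V} (h : OK R v [x, y, a, b, c])
    (t : (R a < R v ∧ R b < R v ∧ R v < R c) ∨ (R a < R v ∧ R v < R b ∧ R c < R v) ∨
      (R v < R a ∧ R b < R v ∧ R c < R v)) : (R x < R v ↔ ¬ R y < R v) := by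
  simp only [OK, List.countP_cons, List.countP_nil, decide_eq_true_eq] at h
  rcases t with t | t | t <;> simp only [t, if_true, t.1.not_gt, t.2.1.not_gt, t.2.2.not_gt,
    if_false] at h <;> split_ifs at h <;> first | omega | simp at h

theorem q4 {x a b c : ℕ} (n34 : x ≠ a) (n35 : x ≠ b) (n36 : x ≠ c) (n45 : a ≠ b) (n46 : a ≠ c) (n56 : b ≠ c)
  (o4 : (x < a → b < a → c < a) ∧ (x < a → c < a → b < a) ∧ (b < a → c < a → x < a))
  (o5 : (x < b → a < b → c < b) ∧ (x < b → c < b → a < b) ∧ (a < b → c < b → x < b))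
  (o6 : (x < c → a < c → b < c) ∧ (x < c → b < c → a < c) ∧ (a < c → b < c → x < c)) :
  (a < x ∧ b < x ∧ x < c) ∨ (a < x ∧ x < b ∧ c < x) ∨ (x < a ∧ b < x ∧ c < x) := by
  rcases n34.lt_or_gt with h1 | h1 <;> rcases n35.lt_or_gt with h2 | h2 <;>
  rcases n36.lt_or_gt with h3 | h3 <;> rcases n45.lt_or_gt with h4 | h4 <;>
  rcases n46.lt_or_gt with h5 | h5 <;> rcases n56.lt_or_gt with h6 | h6 <;>
  simp [h1, h2, h3, h4, h5, h6, h1.not_gt, h2.not_gt, h3.not_gt, h4.not_gt, h5.not_gt, h6.not_gt] at o4 o5 o6 ⊢ <;> omega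

theorem q5 {v l u x : ℕ} (n12 : l ≠ u) (n23 : u ≠ x) (n2 : v ≠ u) (n3 : v ≠ x)
  (o2 : (l < u → v < u → x < u) ∧ (l < u → x < u → v < u) ∧ (v < u → x < u → l < u))
  (o3 : v < x ↔ ¬ u < x) : (u < v ↔ x < v) ∧ (v < u → l < u) ∧ v ≠ u := by
  omega
theorem q6 {a b c a' b' c' : ℕ} (n01 : a ≠ b) (n02 : a ≠ c) (n12 : b ≠ c)
  (o0 : b < a → c < a → a' < a) (o1 : c < b → a < b → b' < b) (o2 : a < c → b < c → c' < c) :
  a' < a ∨ b' < b ∨ c' < c := by omega

theorem sound (h : TypeB (gr (red φ).1 (red φ).2)) : SAT3 φ := by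
  classical
  obtain ⟨p, h1, h2, h3⟩ := graph φ
  obtain ⟨f, f1, f2⟩ := h
  obtain ⟨R, hR⟩ : ∃ R : V → ℕ, ∀ i, R (p i) = f i :=
    ⟨Function.extend p f fun _ => 0, fun i => h1.extend_apply _ _ _⟩
  have ok : ∀ v, Val φ v → OK R v (nb φ v) := by
    intro v hv
    obtain ⟨i, rfl⟩ := (h2 v).1 hv
    have := f2 i
    rw [dm, dp, h3 i _ (fun w => R w < R (p i)) (by simp [hR]),
      h3 i _ (fun w => R (p i) < R w) (by simp [hR]), Nat.odd_iff] at this
    exact this.elim (Or.imp_right Or.inl) fun h => Or.inr (Or.inr h.2)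
  have ne : ∀ v w, Val φ v → Val φ w → v ≠ w → R v ≠ R w := by
    intro v w hv hw n e
    obtain ⟨i, rfl⟩ := (h2 v).1 hv
    obtain ⟨j, rfl⟩ := (h2 w).1 hw
    rw [hR, hR] at e
    exact n (congrArg p (f1 e))
  clear h3 f2 hR f1 h1 h2
  have k1 : ∀ j < φ.length, ∀ r < 3, (R (2, j, r) < R (vv φ j r) ↔ R (3, j, r) < R (vv φ j r)) ∧
      (R (vv φ j r) < R (2, j, r) → R (1, j, r) < R (2, j, r)) ∧ R (vv φ j r) ≠ R (2, j, r) := by
    intro j hj r hr
    have v : ∀ k, 1 ≤ k → k ≤ 6 → Val φ (k, j, r) := fun k a b => Or.inr ⟨a, b, hj, hr⟩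
    have n : ∀ k k', 1 ≤ k → k < k' → k' ≤ 6 → R (k, j, r) ≠ R (k', j, r) := fun k k' a b c =>
      ne _ _ (v _ a (by omega)) (v _ (by omega) c) (by simp; omega)
    have n' : ∀ k, 1 ≤ k → k ≤ 6 → R (vv φ j r) ≠ R (k, j, r) := fun k a b =>
      ne _ _ (vv_val φ hj) (v _ a b) fun e => by have := congrArg Prod.fst e; simp [vv1] at this; omega
    have n12 := n 1 2 (by omega) (by omega) (by omega)
    have n23 := n 2 3 (by omega) (by omega) (by omega)
    have n34 := n 3 4 (by omega) (by omega) (by omega)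
    have n35 := n 3 5 (by omega) (by omega) (by omega)
    have n36 := n 3 6 (by omega) (by omega) (by omega)
    have n45 := n 4 5 (by omega) (by omega) (by omega)
    have n46 := n 4 6 (by omega) (by omega) (by omega)
    have n56 := n 5 6 (by omega) (by omega) (by omega)
    have n2 := n' 2 (by omega) (by omega)
    have n3 := n' 3 (by omega) (by omega)
    have o2 := ok3 (ok _ (v 2 (by omega) (by omega))) n12 n2 n23.symm
    have o4 := ok3 (ok _ (v 4 (by omega) (by omega))) n34 n45.symm n46.symm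
    have o5 := ok3 (ok _ (v 5 (by omega) (by omega))) n35 n45 n56.symm
    have o6 := ok3 (ok _ (v 6 (by omega) (by omega))) n36 n46 n56
    have o3 := ok5 (ok _ (v 3 (by omega) (by omega))) (q4 n34 n35 n36 n45 n46 n56 o4 o5 o6)
    exact q5 n12 n23 n2 n3 o2 o3
  have k2 : ∀ j < φ.length, ∀ r < 3, R (2, j, r) < R (1, j, r) →
      R (0, (vv φ j r).2.1, 1 - (vv φ j r).2.2) < R (vv φ j r) := by
    intro j hj r hr h
    have a := vv_val φ (r := r) hj
    have o := ok _ a
    have b : (j, r) ∈ occ φ (vv φ j r) := (mem_occ _ _ _).2 ⟨hj, hr, rfl⟩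
    have c := even_fl (fun w => R w < R (vv φ j r)) (occ φ (vv φ j r)) fun o ho => by
      obtain ⟨a, b, c⟩ := (mem_occ _ _ _).1 ho
      have := (k1 _ a _ b).1
      rw [c] at this
      simpa using this
    have d := (nb_spec φ a).2 (0, (vv φ j r).2.1, 1 - (vv φ j r).2.2) (by simp [nb, vv1])
    have e := ne _ _ d.1 a d.2.1
    have g := k1 j hj r hr
    by_contra hn
    simp only [OK, nb, vv1, if_true, List.countP_cons, decide_eq_true_eq, if_neg hn,
      if_pos (lt_of_le_of_ne (not_lt.1 hn) e.symm)] at o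
    have := List.countP_eq_zero.1 (show _ = 0 by omega :
      ((occ φ (vv φ j r)).flatMap fun o => [((2, o) : V), (3, o)]).countP
        (fun w => R w < R (vv φ j r)) = 0) (2, j, r) (List.mem_flatMap.2 ⟨_, b, by simp⟩)
    simp at this
    omega
  refine ⟨fun x => decide (R (0, x, 0) < R (0, x, 1)), fun c hc => ?_⟩
  obtain ⟨j, hj, rfl⟩ := List.getElem_of_mem hc
  have k3 : ∀ r < 3, R (2, j, r) < R (1, j, r) →
      decide (R (0, (lit φ j r).1, 0) < R (0, (lit φ j r).1, 1)) = (lit φ j r).2 := by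
    intro r hr h
    have := k2 j hj r hr h
    simp only [vv] at this
    cases e : (lit φ j r).2 <;> simp [e] at this ⊢ <;> omega
  have v : ∀ r < 3, Val φ (1, j, r) := fun r a => Or.inr ⟨le_rfl, by simp, hj, a⟩
  have n : ∀ k k', k < k' → k' < 3 → R (1, j, k) ≠ R (1, j, k') := fun k k' a b =>
    ne _ _ (v _ (by omega)) (v _ b) (by simp; omega)
  have n' : ∀ k < 3, R (1, j, k) ≠ R (2, j, k) := fun k a =>
    ne _ _ (v _ a) (Or.inr ⟨by simp, by simp, hj, a⟩) (by simp)
  have n01 := n 0 1 (by omega) (by omega)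
  have n02 := n 0 2 (by omega) (by omega)
  have n12 := n 1 2 (by omega) (by omega)
  have o0 := ok3 (ok _ (v 0 (by omega))) n01.symm n02.symm (n' 0 (by omega)).symm
  have o1 := ok3 (x := (1, j, 2)) (y := (1, j, 0)) (z := (2, j, 1))
    (by simpa [nb] using ok _ (v 1 (by omega))) n12.symm n01 (n' 1 (by omega)).symm
  have o2 := ok3 (x := (1, j, 0)) (y := (1, j, 1)) (z := (2, j, 2))
    (by simpa [nb] using ok _ (v 2 (by omega))) n02 n12 (n' 2 (by omega)).symm
  have t : R (2, j, 0) < R (1, j, 0) ∨ R (2, j, 1) < R (1, j, 1) ∨ R (2, j, 2) < R (1, j, 2) :=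
    q6 n01 n02 n12 o0.1 o1.1 o2.1
  have e0 := k3 0 (by omega)
  have e1 := k3 1 (by omega)
  have e2 := k3 2 (by omega)
  simp only [lit, List.getD_eq_getElem _ _ hj, if_true, if_false, one_ne_zero,
    OfNat.ofNat_ne_zero, OfNat.ofNat_ne_one] at e0 e1 e2
  exact t.imp e0 (Or.imp e1 e2)

theorem complete (h : SAT3 φ) : TypeA (gr (red φ).1 (red φ).2) := by
  classical
  obtain ⟨p, h1, h2, h3⟩ := graph φ
  obtain ⟨σ, hσ⟩ := h
  have : ∀ j, ∃ t < 3, j < φ.length → σ (lit φ j t).1 = (lit φ j t).2 := by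
    intro j
    by_cases hj : j < φ.length
    · rcases hσ _ (List.getElem_mem hj) with h | h | h
      · exact ⟨0, by omega, fun _ => by simpa [lit, List.getD_eq_getElem _ _ hj, hj] using h⟩
      · exact ⟨1, by omega, fun _ => by simpa [lit, List.getD_eq_getElem _ _ hj, hj] using h⟩
      · exact ⟨2, by omega, fun _ => by simpa [lit, List.getD_eq_getElem _ _ hj, hj] using h⟩
    · exact ⟨0, by omega, fun h => absurd h hj⟩
  choose t t1 t2 using this
  let T : V → Prop := fun v => (σ v.2.1).toNat = v.2.2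
  have t3 : ∀ j < φ.length, T (vv φ j (t j)) := fun j hj => by
    simp only [T, vv, t2 j hj]; cases (lit φ j (t j)).2 <;> rfl
  let R : V → ℕ := fun v => if v.1 = 0 then (if T v then 9 else 0)
    else if v.1 = 1 then (if v.2.2 = t v.2.1 then 3 else if v.2.2 = (t v.2.1 + 1) % 3 then 1 else 2)
    else if v.1 = 2 then (if v.2.2 = t v.2.1 then 0 else 5)
    else if v.1 = 3 then (if T (vv φ v.2.1 v.2.2) then 7 else 4)
    else if v.1 = 4 then 0 else if v.1 = 5 then 1 else 8
  have Rv : ∀ j r, R (vv φ j r) = if T (vv φ j r) then 9 else 0 := fun j r => by simp [R, vv1]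
  have ok : ∀ v, Val φ v → (∀ w ∈ nb φ v, R w ≠ R v) ∧ ((nb φ v).countP (fun w => R w < R v) % 2 = 1 ∨
      (nb φ v).countP (fun w => R w < R v) = 0) := by
    rintro ⟨k, a, b⟩ (⟨rfl, a1, a2⟩ | ⟨a1, a2, a3, a4⟩)
    · dsimp only at a1 a2
      have := Bool.toNat_lt (σ a)
      have c : T (0, a, 1 - b) ↔ ¬ T (0, a, b) := by simp only [T]; omega
      have d : ∀ o ∈ occ φ (0, a, b), (T (0, a, b) → R (2, o) < 9 ∧ R (3, o) < 9) ∧
          (¬ T (0, a, b) → 0 < R (2, o) ∧ 0 < R (3, o)) := by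
        intro o ho
        obtain ⟨e1, e2, e3⟩ := (mem_occ _ _ _).1 ho
        have := t3 _ e1
        simp only [R, e3]
        refine ⟨fun _ => by simp; split_ifs <;> omega, fun n => ?_⟩
        have : o.2 ≠ t o.1 := fun e => n (by rwa [← e, e3] at this)
        simp [this, n]
      by_cases e : T (0, a, b)
      · have e' : R (0, a, b) = 9 := by simp [R, e]
        have e'' : R (0, a, 1 - b) = 0 := by simp [R, c, e]
        have g := even_fl (fun w => R w < 9) (occ φ (0, a, b)) fun o ho => by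
          simp [(d o ho).1 e]
        simp only [nb, if_true, e', List.forall_mem_cons, List.countP_cons, e'', List.mem_flatMap]
        refine ⟨⟨by omega, ?_⟩, Or.inl (by simp; omega)⟩
        rintro w ⟨o, ho, hw⟩
        have := (d o ho).1 e
        simp only [List.mem_cons, List.not_mem_nil, or_false] at hw
        rcases hw with rfl | rfl <;> omega
      · have e' : R (0, a, b) = 0 := by simp [R, e]
        have e'' : R (0, a, 1 - b) = 9 := by simp [R, c, e]
        simp only [nb, if_true, e', List.forall_mem_cons, List.countP_cons, e'', List.mem_flatMap]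
        refine ⟨⟨by omega, ?_⟩, Or.inr (by simp)⟩
        rintro w ⟨o, ho, hw⟩
        have := (d o ho).2 e
        simp only [List.mem_cons, List.not_mem_nil, or_false] at hw
        rcases hw with rfl | rfl <;> omega
    · dsimp only at a1 a2 a3 a4
      have c1 := t1 a
      have c2 := t3 a a3
      interval_cases k
      · generalize hx : t a = x at *
        interval_cases b <;> interval_cases x <;> simp [nb, R, hx]
      all_goals
        simp only [nb, List.forall_mem_cons, List.countP_cons, Rv, reduceCtorEq,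
          OfNat.ofNat_ne_zero, OfNat.ofNat_ne_one, Nat.reduceEqDiff, if_true, if_false]
        by_cases e : b = t a
        · subst e; simp [R, c2]
        · by_cases e' : T (vv φ a b) <;> simp [R, e, e'] <;> split_ifs <;> omega
  have hv : ∀ i, Val φ (p i) := fun i => (h2 _).2 ⟨i, rfl⟩
  have lt : ∀ i j : Fin (red φ).1, R (p j) < R (p i) →
      R (p j) * (vs φ).length + j.val < R (p i) * (vs φ).length + i.val := by
    intro i j h
    have : j.val < (vs φ).length := j.2
    have := Nat.mul_le_mul_right (vs φ).length (show R (p j) + 1 ≤ R (p i) from h)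
    nlinarith
  refine ⟨fun i => R (p i) * (vs φ).length + i.val, fun i j e => ?_, fun i => ?_⟩
  · dsimp only at e
    rcases lt_trichotomy (R (p i)) (R (p j)) with h | h | h
    · have := lt _ _ h; omega
    · rw [h] at e; exact Fin.ext (by omega)
    · have := lt _ _ h; omega
  · rw [dm, h3 i _ (fun w => R w < R (p i)), Nat.odd_iff]
    · exact (ok _ (hv i)).2
    · intro j hj
      have := (ok _ (hv i)).1 _ hj
      have := lt i j
      have := lt j i
      simp only [decide_eq_true_eq]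
      omega

theorem AB {V : Type} {G : SimpleGraph V} (h : TypeA G) : TypeB G :=
  h.imp fun _ h => ⟨h.1, fun v => Or.inl (h.2 v)⟩

theorem result : (NPHard fun y : ℕ × List (ℕ × ℕ) => TypeA (gr y.1 y.2)) ∧
    NPHard fun y : ℕ × List (ℕ × ℕ) => TypeB (gr y.1 y.2) :=
  ⟨(hard_SAT3.red red red_pt fun φ => ⟨complete φ, fun h => sound φ (AB h)⟩).npHard,
    (hard_SAT3.red red red_pt fun φ => ⟨fun h => AB (complete φ h), sound φ⟩).npHard⟩

end Pool.Agent.Results.MP_e5cbc1_lc.NPHard
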